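import Pool.Agent.Helper85.LN2.Goals
import Pool.Agent.Helper61.LN.VNFP

/-! Packet LN2 FPQ: some virtually abelian quotients. -/

namespace Pool.Agent.Helper61.LN2

open Pool.Agent.Helper85.LN Pool.Agent.Helper85.LN2 Pool.Agent.Helper5.Gap

open scoped commutatorElement

theorem fpq : S_FPQ := by
  intro G _ K₀ K A₁ _ _ hG h1 h2 h3 h4 h5
  have hsurj : Function.Surjective (QuotientGroup.mk' K₀) := QuotientGroup.mk'_surjective K₀
  have hker : (QuotientGroup.mk' K₀).ker = K₀ := QuotientGroup.ker_mk' K₀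
  have hKfin : Finite (K.map (QuotientGroup.mk' K₀)) := by
    apply Nat.finite_of_card_ne_zero
    rw [← Subgroup.relIndex_bot_left, ← Subgroup.relIndex_comap, MonoidHom.comap_bot, hker]
    exact h2
  have hAi : (A₁.map (QuotientGroup.mk' K₀)).index ≠ 0 := by
    rw [Subgroup.index_map_eq _ hsurj (by rw [hker]; exact h1.trans h3)]
    exact h4
  have hAfi : (A₁.map (QuotientGroup.mk' K₀)).FiniteIndex := ⟨hAi⟩
  have hAfg : Group.FG (A₁.map (QuotientGroup.mk' K₀)) := inferInstance
  have hcs : Finite (commutatorSet (A₁.map (QuotientGroup.mk' K₀))) := by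
    have hfin : (Subtype.val ⁻¹' ((K.map (QuotientGroup.mk' K₀) : Subgroup (G ⧸ K₀)) :
        Set (G ⧸ K₀)) : Set (A₁.map (QuotientGroup.mk' K₀))).Finite :=
      Set.Finite.preimage Subtype.val_injective.injOn (Set.toFinite _)
    refine (hfin.subset ?_).to_subtype
    rintro _ ⟨⟨a, x, hx, rfl⟩, ⟨b, y, hy, rfl⟩, rfl⟩
    refine ⟨⁅x, y⁆, h5 (Subgroup.commutator_mem_commutator hx hy), ?_⟩
    simp [commutatorElement_def]
  have hci : (Subgroup.center (A₁.map (QuotientGroup.mk' K₀))).FiniteIndex := inferInstance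
  have hCi : ((Subgroup.center (A₁.map (QuotientGroup.mk' K₀))).map
      (Subgroup.subtype _)).index ≠ 0 := by
    rw [Subgroup.index_map_subtype]
    exact mul_ne_zero hci.index_ne_zero hAi
  have hCcomm : ∀ a ∈ (Subgroup.center (A₁.map (QuotientGroup.mk' K₀))).map (Subgroup.subtype _),
      ∀ b ∈ (Subgroup.center (A₁.map (QuotientGroup.mk' K₀))).map (Subgroup.subtype _),
      a * b = b * a := by
    rintro _ ⟨a, ha, rfl⟩ _ ⟨b, hb, rfl⟩
    have := (Subgroup.mem_center_iff.1 hb) a
    exact congrArg Subtype.val this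
  constructor
  · refine Pool.Agent.Helper61.LN.vnfp (G ⧸ K₀) inferInstance
      ⟨(Subgroup.center (A₁.map (QuotientGroup.mk' K₀))).map (Subgroup.subtype _), ⟨hCi⟩, ?_⟩
    have hcm : IsMulCommutative ((Subgroup.center (A₁.map (QuotientGroup.mk' K₀))).map
        (Subgroup.subtype _)) :=
      ⟨⟨fun a b => Subtype.ext (hCcomm a.1 a.2 b.1 b.2)⟩⟩
    refine ⟨1, ?_⟩
    rw [Subgroup.upperCentralSeries_one_eq_top_iff]
    exact hcm
  · refine ⟨((Subgroup.center (A₁.map (QuotientGroup.mk' K₀))).map (Subgroup.subtype _)).comap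
      (QuotientGroup.mk' K₀), ?_, ?_, ?_⟩
    · intro x hx
      rw [Subgroup.mem_comap]
      have : (QuotientGroup.mk' K₀) x = 1 := by
        rw [← MonoidHom.mem_ker, hker]
        exact hx
      rw [this]
      exact Subgroup.one_mem _
    · rw [Subgroup.index_comap_of_surjective _ hsurj]
      exact hCi
    · rw [Subgroup.commutator_le]
      intro a ha b hb
      have h6 := hCcomm _ ha _ hb
      rw [← hker, MonoidHom.mem_ker, map_commutatorElement, commutatorElement_eq_one_iff_mul_comm]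
      exact h6

end Pool.Agent.Helper61.LN2
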