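import Pool.Agent.Helper85.LN2.Goals

/-! Packet LN2 NOE: a form of a theorem of P. Hall. -/

namespace Pool.Agent.Helper61.LN2

open Pool.Agent.Helper85.LN Pool.Agent.Helper85.LN2 Pool.Agent.Helper5.Gap

/-- Hilbert's basis theorem for an abelian group with an action of a finitely generated commutative group. -/
theorem hall {Γ V : Type} [CommGroup Γ] [Group.FG Γ] [AddCommGroup V] (ρ : Γ →* Module.End ℤ V)
    (T : Set V) (hT : T.Finite)
    (hgen : ∀ U : AddSubgroup V, (∀ g, ∀ v ∈ U, ρ g v ∈ U) → T ⊆ U → U = ⊤)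
    (W : AddSubgroup V) (hW : ∀ g, ∀ v ∈ W, ρ g v ∈ W) :
    ∃ R : Set V, R.Finite ∧ R ⊆ W ∧
      ∀ U : AddSubgroup V, (∀ g, ∀ v ∈ U, ρ g v ∈ U) → R ⊆ U → W ≤ U := by
  let md : Module (MonoidAlgebra ℤ Γ) V :=
    Module.compHom V (MonoidAlgebra.lift ℤ (Module.End ℤ V) Γ ρ).toRingHom
  have hsm : ∀ (r : MonoidAlgebra ℤ Γ) (v : V),
      r • v = MonoidAlgebra.lift ℤ (Module.End ℤ V) Γ ρ r v := fun _ _ => rfl
  have hof : ∀ (g : Γ) (v : V), MonoidAlgebra.of ℤ Γ g • v = ρ g v := by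
    intro g v
    rw [hsm, MonoidAlgebra.lift_of]
  have hmem : ∀ U : AddSubgroup V, (∀ g, ∀ v ∈ U, ρ g v ∈ U) → ∀ (r : MonoidAlgebra ℤ Γ) (v : V),
      v ∈ U → r • v ∈ U := by
    intro U hU r v hv
    induction r using MonoidAlgebra.induction_on with
    | of g =>
      rw [hof]
      exact hU g v hv
    | add f g hf hg =>
      rw [add_smul]
      exact U.add_mem hf hg
    | smul n f hf =>
      rw [hsm, map_smul, LinearMap.smul_apply]
      rw [hsm] at hf
      exact U.zsmul_mem hf n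
  let sub : ∀ U : AddSubgroup V, (∀ g, ∀ v ∈ U, ρ g v ∈ U) → Submodule (MonoidAlgebra ℤ Γ) V :=
    fun U hU =>
    { carrier := U
      add_mem' := fun ha hb => U.add_mem ha hb
      zero_mem' := U.zero_mem
      smul_mem' := fun r v hv => hmem U hU r v hv }
  have hst : ∀ (P : Submodule (MonoidAlgebra ℤ Γ) V), ∀ g, ∀ v ∈ P.toAddSubgroup,
      ρ g v ∈ P.toAddSubgroup := by
    intro P g v hv
    rw [← hof]
    exact P.smul_mem _ hv
  have hspan : Submodule.span (MonoidAlgebra ℤ Γ) T = ⊤ := by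
    have := hgen (Submodule.span (MonoidAlgebra ℤ Γ) T).toAddSubgroup (hst _)
      (fun v hv => Submodule.subset_span hv)
    rw [eq_top_iff]
    intro v _
    have hv : v ∈ (Submodule.span (MonoidAlgebra ℤ Γ) T).toAddSubgroup := by
      rw [this]
      exact AddSubgroup.mem_top v
    exact hv
  have hfin : Module.Finite (MonoidAlgebra ℤ Γ) V :=
    ⟨⟨hT.toFinset, by rw [Set.Finite.coe_toFinset]; exact hspan⟩⟩
  have hnr : IsNoetherianRing (MonoidAlgebra ℤ Γ) :=
    Algebra.FiniteType.isNoetherianRing ℤ (MonoidAlgebra ℤ Γ)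
  have hn : IsNoetherian (MonoidAlgebra ℤ Γ) V := inferInstance
  obtain ⟨R, hR⟩ := hn.noetherian (sub W hW)
  refine ⟨R, R.finite_toSet, ?_, ?_⟩
  · intro v hv
    have : v ∈ sub W hW := by
      rw [← hR]
      exact Submodule.subset_span hv
    exact this
  · intro U hU hRU
    have : sub W hW ≤ sub U hU := by
      rw [← hR, Submodule.span_le]
      exact hRU
    exact this

section

variable {F : Type} [Group F] {M : Subgroup F}

/-- the class of an element of `M` -/
def cl (x : M) : Additive (Abelianization M) := Additive.ofMul (Abelianization.of x)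

theorem cl_mul (x y : M) : cl (x * y) = cl x + cl y := rfl

theorem cl_one : cl (1 : M) = 0 := rfl

theorem cl_inv (x : M) : cl x⁻¹ = - cl x := rfl

theorem cl_surj (v : Additive (Abelianization M)) : ∃ x : M, cl x = v := by
  obtain ⟨x, hx⟩ := QuotientGroup.mk_surjective (Additive.toMul v)
  exact ⟨x, hx⟩

theorem cl_eq {x y : M} (h : cl x = cl y) : (x : F)⁻¹ * y ∈ ⁅M, M⁆ := by
  have h1 : (Abelianization.of x : Abelianization M) = Abelianization.of y := h
  have h2 : x⁻¹ * y ∈ commutator M := QuotientGroup.eq.1 h1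
  rw [← Subgroup.map_subtype_commutator]
  exact ⟨_, h2, rfl⟩

variable [M.Normal]

/-- conjugation -/
def cjM (g : F) (x : M) : M := ⟨g * x * g⁻¹, Subgroup.Normal.conj_mem inferInstance _ x.2 g⟩

/-- conjugation as an endomorphism of the abelianization -/
def cj (g : F) : Module.End ℤ (Additive (Abelianization M)) :=
  (MonoidHom.toAdditive (Abelianization.map
    (⟨⟨cjM g, Subtype.ext (by simp [cjM])⟩, fun x y => Subtype.ext (by simp [cjM])⟩ :
      M →* M))).toIntLinearMap

theorem cj_cl (g : F) (x : M) : cj g (cl x) = cl (cjM g x) := rfl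

variable (M) in
/-- conjugation as an action -/
def phi : F →* Module.End ℤ (Additive (Abelianization M)) where
  toFun := cj
  map_one' := by
    ext v
    obtain ⟨x, rfl⟩ := cl_surj v
    rw [cj_cl]
    have : cjM (1 : F) x = x := Subtype.ext (by simp [cjM])
    rw [this]
    rfl
  map_mul' g h := by
    ext v
    obtain ⟨x, rfl⟩ := cl_surj v
    rw [Module.End.mul_apply, cj_cl, cj_cl, cj_cl]
    have : cjM (g * h) x = cjM g (cjM h x) := Subtype.ext (by simp [cjM, mul_assoc])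
    rw [this]

theorem phi_cl (g : F) (x : M) : phi M g (cl x) = cl (cjM g x) := rfl

theorem phi_mem {g : F} (hg : g ∈ M) : phi M g = 1 := by
  ext v
  obtain ⟨x, rfl⟩ := cl_surj v
  rw [phi_cl]
  have : cjM g x = (⟨g, hg⟩ : M) * x * (⟨g, hg⟩ : M)⁻¹ := Subtype.ext (by simp [cjM])
  rw [this, cl_mul, cl_mul, cl_inv]
  simp

/-- the image of `P ∩ M` -/
def VP (P : Subgroup F) : AddSubgroup (Additive (Abelianization M)) where
  carrier := {v | ∃ x : M, (x : F) ∈ P ∧ cl x = v}
  add_mem' := by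
    rintro _ _ ⟨x, hx, rfl⟩ ⟨y, hy, rfl⟩
    exact ⟨x * y, P.mul_mem hx hy, cl_mul x y⟩
  zero_mem' := ⟨1, P.one_mem, cl_one⟩
  neg_mem' := by
    rintro _ ⟨x, hx, rfl⟩
    exact ⟨x⁻¹, P.inv_mem hx, cl_inv x⟩

theorem VP_stable (P : Subgroup F) [P.Normal] (g : F) (v : Additive (Abelianization M))
    (hv : v ∈ VP P) : phi M g v ∈ VP (M := M) P := by
  obtain ⟨x, hx, rfl⟩ := hv
  exact ⟨cjM g x, Subgroup.Normal.conj_mem inferInstance _ hx g, rfl⟩

/-- the preimage of `U` -/
def FU (U : AddSubgroup (Additive (Abelianization M))) : Subgroup F where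
  carrier := {g | ∃ h : g ∈ M, cl ⟨g, h⟩ ∈ U}
  mul_mem' := by
    rintro a b ⟨ha, hau⟩ ⟨hb, hbu⟩
    exact ⟨M.mul_mem ha hb, U.add_mem hau hbu⟩
  one_mem' := ⟨M.one_mem, U.zero_mem⟩
  inv_mem' := by
    rintro a ⟨ha, hau⟩
    exact ⟨M.inv_mem ha, U.neg_mem hau⟩

end

open Classical in
theorem noe : S_NOE := by
  intro F _ M N A hF hM hN hT hNM hMN _ hAi hA
  obtain ⟨T, hTf, hMT⟩ := hT
  have hfi : A.FiniteIndex := ⟨hAi⟩
  have hAfg : Group.FG A := inferInstance
  have hΓfg : Group.FG (Abelianization A) := inferInstanceAs (Group.FG (A ⧸ commutator A))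
  have hker : commutator A ≤ ((phi M).comp A.subtype).ker := by
    intro x hx
    rw [MonoidHom.mem_ker]
    apply phi_mem
    apply hA
    rw [← Subgroup.map_subtype_commutator]
    exact ⟨x, hx, rfl⟩
  let ρ : Abelianization A →* Module.End ℤ (Additive (Abelianization M)) :=
    QuotientGroup.lift (commutator A) ((phi M).comp A.subtype) hker
  have hρ : ∀ a : A, ρ (Abelianization.of a) = phi M (a : F) := fun a => rfl
  let tc : F → Additive (Abelianization M) := fun t => if h : t ∈ M then cl ⟨t, h⟩ else 0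
  let T' : Set (Additive (Abelianization M)) :=
    (fun p : (F ⧸ A) × F => phi M (p.1.out⁻¹) (tc p.2)) '' (Set.univ ×ˢ T)
  have hT' : T'.Finite := ((Set.finite_univ (α := F ⧸ A)).prod hTf).image _
  have hTM : T ⊆ M := by
    rw [hMT]
    exact Subgroup.subset_normalClosure
  have hgen : ∀ U : AddSubgroup (Additive (Abelianization M)),
      (∀ g, ∀ v ∈ U, ρ g v ∈ U) → T' ⊆ U → U = ⊤ := by
    intro U hU hTU
    have h1 : M ≤ FU U := by
      have h2 : Subgroup.normalClosure T ≤ FU U := by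
        rw [Subgroup.normalClosure, Subgroup.closure_le]
        intro x hx
        obtain ⟨t, ht, hc⟩ := Group.mem_conjugatesOfSet_iff.1 hx
        obtain ⟨c, rfl⟩ := isConj_iff.1 hc
        have htM : t ∈ M := hTM ht
        have h3 : phi M ((QuotientGroup.mk c⁻¹ : F ⧸ A).out⁻¹) (tc t) ∈ U :=
          hTU ⟨(QuotientGroup.mk c⁻¹, t), ⟨Set.mem_univ _, ht⟩, rfl⟩
        have h4 : (QuotientGroup.mk c⁻¹ : F ⧸ A).out⁻¹ * c⁻¹ ∈ A := by
          apply QuotientGroup.eq.1
          exact Quotient.out_eq _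
        set r : F := (QuotientGroup.mk c⁻¹ : F ⧸ A).out with hr
        have h5 := hU (Abelianization.of (⟨r⁻¹ * c⁻¹, h4⟩⁻¹ : A)) _ h3
        rw [hρ] at h5
        have h6 : tc t = cl ⟨t, htM⟩ := dif_pos htM
        rw [h6, phi_cl, phi_cl] at h5
        refine ⟨Subgroup.Normal.conj_mem hM _ htM c, ?_⟩
        convert h5 using 2
        apply Subtype.ext
        simp [cjM, mul_assoc]
      exact hMT.le.trans h2
    rw [eq_top_iff]
    intro v _
    obtain ⟨x, rfl⟩ := cl_surj v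
    obtain ⟨_, h2⟩ := h1 x.2
    exact h2
  have hst : ∀ (P : Subgroup F) (_ : P.Normal) (g : Abelianization A), ∀ v ∈ VP (M := M) P,
      ρ g v ∈ VP (M := M) P := by
    intro P hP g v hv
    obtain ⟨a, rfl⟩ := QuotientGroup.mk_surjective g
    exact VP_stable P _ v hv
  obtain ⟨R₀, hR₀f, hR₀W, hR₀⟩ := hall ρ T' hT' hgen (VP N) (hst N hN)
  let g : Additive (Abelianization M) → F :=
    fun v => if h : ∃ x : M, (x : F) ∈ N ∧ cl x = v then (h.choose : F) else 1
  have hg : ∀ v (h : ∃ x : M, (x : F) ∈ N ∧ cl x = v), g v = h.choose := fun v h => dif_pos h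
  have hRN : g '' R₀ ⊆ N := by
    rintro _ ⟨v, hv, rfl⟩
    have h1 : ∃ x : M, (x : F) ∈ N ∧ cl x = v := hR₀W hv
    rw [hg v h1]
    exact h1.choose_spec.1
  refine ⟨g '' R₀, hR₀f.image g, hRN, le_antisymm ?_ ?_⟩
  · have hPn : (Subgroup.normalClosure (g '' R₀) ⊔ ⁅M, M⁆).Normal := inferInstance
    have h1 := hR₀ (VP (Subgroup.normalClosure (g '' R₀) ⊔ ⁅M, M⁆)) (hst _ hPn) (by
      intro v hv
      have h2 : ∃ x : M, (x : F) ∈ N ∧ cl x = v := hR₀W hv
      refine ⟨h2.choose, ?_, h2.choose_spec.2⟩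
      rw [← hg v h2]
      exact Subgroup.mem_sup_left (Subgroup.subset_normalClosure ⟨v, hv, rfl⟩))
    intro n hn
    have h2 : cl (⟨n, hNM hn⟩ : M) ∈ VP (M := M) N := ⟨⟨n, hNM hn⟩, hn, rfl⟩
    obtain ⟨x, hx, hxc⟩ := h1 h2
    have h3 := cl_eq hxc
    have h4 : n = (x : F) * ((x : F)⁻¹ * n) := by group
    rw [h4]
    exact Subgroup.mul_mem _ hx (Subgroup.mem_sup_right h3)
  · exact sup_le (Subgroup.normalClosure_le_normal hRN) hMN

end Pool.Agent.Helper61.LN2
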